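import Pool.Agent.Helper24.MA.Defs2
import Pool.Agent.Helper24.MA.Perm.Perm

/-!
# The sum of gr(End V i) is at most the number of fixed points (module MA-22)

PROOF. Let `E` act on `M` through `act` (`MulAction.compHom M act`, with the tautological action of `MulAut M` on `M`) and on `M → k` by `permRep`, `(x F) m = F (act x⁻¹ m)`.
`A i : End (V i) → (M → k)`, `a ↦ (m ↦ trace (a ∘ σ i m))`, `B i F = (n_i/|M|) ∑ m, F m • σ i m⁻¹`. By the Fourier relations `B i A i = 1`, `B j A i = 0` for `i ≠ j`.
Equivariance: `trace (X x a X x⁻¹ σ m) = trace (a X x⁻¹ σ m X x) = trace (a σ (act x⁻¹ m))` and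
`B i (x F) = (n_i/|M|) ∑ m, F (act x⁻¹ m) σ m⁻¹ = (n_i/|M|) ∑ m, F m σ (act x m⁻¹) = X x (B i F) X x⁻¹`. `gr_sum_le` and `gr_perm_le` (the fixed points of the action are the `m` with `act x m = m` for all `x`).
-/

namespace Pool.Agent.Helper24.MA

/-- the map `a ↦ (m ↦ trace (a σ m))` -/
private noncomputable def trMap {k M V : Type} [Field k] [Group M] [AddCommGroup V] [Module k V]
    (σ : Representation k M V) : (V →ₗ[k] V) →ₗ[k] (M → k) :=
  LinearMap.pi fun m => LinearMap.trace k V ∘ₗ LinearMap.lcomp k V (σ m)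

private lemma trMap_apply {k M V : Type} [Field k] [Group M] [AddCommGroup V] [Module k V]
    (σ : Representation k M V) (a : V →ₗ[k] V) (m : M) :
    trMap σ a m = LinearMap.trace k V (a ∘ₗ σ m) := rfl

/-- the map `F ↦ c ∑ F m σ m⁻¹` -/
private noncomputable def backMap {k M V : Type} [Field k] [Group M] [Fintype M]
    [AddCommGroup V] [Module k V] (c : k) (σ : Representation k M V) :
    (M → k) →ₗ[k] (V →ₗ[k] V) where
  toFun F := c • ∑ m, F m • σ m⁻¹
  map_add' F G := by
    simp only [Pi.add_apply, add_smul, Finset.sum_add_distrib, smul_add]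
  map_smul' a F := by
    simp only [Pi.smul_apply, smul_eq_mul, RingHom.id_apply, mul_smul, ← Finset.smul_sum]
    rw [smul_comm]

private lemma backMap_apply {k M V : Type} [Field k] [Group M] [Fintype M]
    [AddCommGroup V] [Module k V] (c : k) (σ : Representation k M V) (F : M → k) :
    backMap c σ F = c • ∑ m, F m • σ m⁻¹ := rfl

theorem sum_linHom_le (p : ℕ) [Fact p.Prime] {k M E I : Type} [Field k] [CharP k p] [Group M]
    [Fintype M] [Group E] [Fintype E] (hE : ElAb p E) (hM : (Fintype.card M : k) ≠ 0)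
    [Fintype I] {V : I → Type} [∀ i, AddCommGroup (V i)] [∀ i, Module k (V i)]
    [∀ i, FiniteDimensional k (V i)] (σ : ∀ i, Representation k M (V i)) (hσ : Fou σ)
    (act : E →* MulAut M) (X : ∀ i, Representation k E (V i))
    (hX : ∀ i x m, X i x ∘ₗ σ i m = σ i (act x m) ∘ₗ X i x) :
    ∑ i, gr p (Representation.linHom (X i) (X i)) ≤ Nat.card {m : M // ∀ x, act x m = m} := by
  classical
  let iact : MulAction E M := MulAction.compHom M act
  have hact : ∀ (x : E) (m : M), x • m = act x m := fun _ _ => rfl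
  have hXX : ∀ i x, X i x ∘ₗ X i x⁻¹ = LinearMap.id := by
    intro i x
    rw [← Module.End.mul_eq_comp, ← map_mul, mul_inv_cancel, map_one]
    rfl
  have hXX' : ∀ i x, X i x⁻¹ ∘ₗ X i x = LinearMap.id := by
    intro i x
    rw [← Module.End.mul_eq_comp, ← map_mul, inv_mul_cancel, map_one]
    rfl
  have h1 := gr_sum_le p hE (fun i => Representation.linHom (X i) (X i)) (permRep k E M)
    (fun i => trMap (σ i))
    (fun i => backMap ((Module.finrank k (V i) : k) / (Fintype.card M : k)) (σ i))
    (by
      intro i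
      apply LinearMap.ext
      intro a
      rw [LinearMap.comp_apply, backMap_apply, LinearMap.id_apply]
      simp only [trMap_apply]
      rw [hσ.same i a, smul_smul, div_mul_div_comm, mul_comm, div_self, one_smul]
      exact mul_ne_zero hM (hσ.dim i))
    (by
      intro i j hij
      apply LinearMap.ext
      intro a
      rw [LinearMap.comp_apply, backMap_apply]
      simp only [trMap_apply]
      rw [hσ.diff j i (Ne.symm hij) a, smul_zero]
      rfl)
    (by
      intro i x
      apply LinearMap.ext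
      intro a
      funext m
      have e1 : (permRep k E M x (trMap (σ i) a)) m = trMap (σ i) a (x⁻¹ • m) := rfl
      rw [LinearMap.comp_apply, LinearMap.comp_apply, e1, trMap_apply, trMap_apply,
        Representation.linHom_apply, hact]
      have e2 : (X i x ∘ₗ a ∘ₗ X i x⁻¹) ∘ₗ σ i m =
          X i x * (a ∘ₗ σ i (act x⁻¹ m) ∘ₗ X i x⁻¹) := by
        rw [← hX i x⁻¹ m, Module.End.mul_eq_comp]
        rfl
      rw [e2, LinearMap.trace_mul_comm, Module.End.mul_eq_comp]
      have e3 : (a ∘ₗ σ i (act x⁻¹ m) ∘ₗ X i x⁻¹) ∘ₗ X i x =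
          (a ∘ₗ σ i (act x⁻¹ m)) ∘ₗ (X i x⁻¹ ∘ₗ X i x) := rfl
      rw [e3, hXX', LinearMap.comp_id])
    (by
      intro i x
      apply LinearMap.ext
      intro F
      rw [LinearMap.comp_apply, LinearMap.comp_apply, Representation.linHom_apply,
        backMap_apply, backMap_apply]
      have e1 : ∀ m, (permRep k E M x F) m = F (act x⁻¹ m) := fun _ => rfl
      simp only [e1]
      have e2 : ∑ m, F (act x⁻¹ m) • σ i m⁻¹ = ∑ m, F m • σ i (act x m)⁻¹ := by
        refine (Fintype.sum_equiv (act x).toEquiv _ _ fun m => ?_).symm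
        have e3 : act x⁻¹ ((act x).toEquiv m) = m := by
          have : act x⁻¹ ((act x) m) = (act x⁻¹ * act x) m := rfl
          change act x⁻¹ ((act x) m) = m
          rw [this, ← map_mul, inv_mul_cancel, map_one]
          rfl
        rw [e3]
        rfl
      rw [e2, LinearMap.smul_comp, LinearMap.comp_smul]
      congr 1
      have e4 : X i x ∘ₗ (∑ m, F m • σ i m⁻¹) ∘ₗ X i x⁻¹ =
          ∑ m, F m • (X i x ∘ₗ σ i m⁻¹ ∘ₗ X i x⁻¹) := by
        apply LinearMap.ext
        intro v
        simp only [LinearMap.comp_apply, LinearMap.sum_apply, LinearMap.smul_apply, map_sum,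
          map_smul]
      rw [e4]
      refine Finset.sum_congr rfl fun m _ => ?_
      rw [← LinearMap.comp_assoc, hX i x m⁻¹, LinearMap.comp_assoc, hXX, LinearMap.comp_id,
        map_inv (act x)])
  have h2 := gr_perm_le (k := k) (Ω := M) p hE
  exact le_trans h1 h2

end Pool.Agent.Helper24.MA
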