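import Pool.Agent.Helper24.MA.Defs2

/-!
# The canonical extension to E in characteristic p (module MA-24)

`ext_unique`: `Z = X x⁻¹ ∘ Y` commutes with all `σ m`, so `Z = a • id`, `Y = a • X x`, and `1 = Y ^ p = a ^ p • X (x ^ p) = a ^ p • 1`, so `a ^ p = 1`, `(a - 1) ^ p = 0`, `a = 1`.
`exists_ext`: for `x` in `E` choose an implementing `Y x` (bijective). `(Y x) ^ p` implements `act (x ^ p) = 1`, so it commutes with the `σ m` and is a scalar `a ≠ 0`; let `b ^ p = a`, and put
`X x = b⁻¹ • Y x`: it implements `act x` and `(X x) ^ p = 1`. For `x, y` in `E`: `X x X y` and `X y X x` implement the same automorphism, so `X x X y = z • X y X x` with a scalar `z` (the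
composition of one with the inverse of the other commutes with the `σ m`). Then `X x ^ p X y = z ^ p • X y X x ^ p` gives `z ^ p = 1`, `z = 1`. So the `X x` commute, `(X x X y) ^ p = 1` and
`X x X y` implements `act (x y)`; two implementing operators with `p`-th power one are equal (argument of `ext_unique`), so `X x X y = X (x y)`; the same argument gives `X 1 = 1`.
-/

namespace Pool.Agent.Helper24.MA

variable {p : ℕ} [Fact p.Prime] {k M E V : Type} [Field k] [CharP k p] [Group M] [Group E]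
  [AddCommGroup V] [Module k V] [Nontrivial V]

private theorem h86ext_one_of_pow {p : ℕ} [Fact p.Prime] {k : Type} [Field k] [CharP k p] (a : k)
    (h : a ^ p = 1) : a = 1 := by
  have h1 : (a - 1) ^ p = 0 := by
    rw [sub_pow_char, h, one_pow, sub_self]
  have hp : p ≠ 0 := (Fact.out : p.Prime).ne_zero
  exact sub_eq_zero.mp ((pow_eq_zero_iff hp).mp h1)

private theorem h86ext_smul_one {k V : Type} [Field k] [AddCommGroup V] [Module k V]
    [Nontrivial V] {a b : k} {A : V →ₗ[k] V} (hA : A ≠ 0) (h : a • A = b • A) : a = b := by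
  have : (a - b) • A = 0 := by rw [sub_smul, h, sub_self]
  rcases smul_eq_zero.mp this with h1 | h1
  · exact sub_eq_zero.mp h1
  · exact absurd h1 hA

private theorem h86ext_scal {k M V : Type} [Field k] [Group M]
    [AddCommGroup V] [Module k V] (σ : Representation k M V)
    (hs : ∀ f : V →ₗ[k] V, (∀ m, f ∘ₗ σ m = σ m ∘ₗ f) → ∃ a : k, f = a • LinearMap.id)
    (α : MulAut M) (A A' B : V →ₗ[k] V) (h1 : A' * A = 1) (h2 : A * A' = 1)
    (hA : ∀ m, A * σ m = σ (α m) * A) (hB : ∀ m, B * σ m = σ (α m) * B) :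
    ∃ a : k, B = a • A := by
  obtain ⟨a, ha⟩ := hs (A' * B) (by
    intro m
    change A' * B * σ m = σ m * (A' * B)
    have h3 : A' * σ (α m) = σ m * A' := by
      calc A' * σ (α m) = A' * σ (α m) * (A * A') := by rw [h2, mul_one]
        _ = A' * (σ (α m) * A) * A' := by simp only [mul_assoc]
        _ = A' * (A * σ m) * A' := by rw [hA]
        _ = (A' * A) * σ m * A' := by simp only [mul_assoc]
        _ = σ m * A' := by rw [h1, one_mul]
    rw [mul_assoc, hB, ← mul_assoc, h3, mul_assoc])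
  refine ⟨a, ?_⟩
  have h4 : A * (A' * B) = B := by rw [← mul_assoc, h2, one_mul]
  rw [← h4, ha]
  change A * (a • (1 : V →ₗ[k] V)) = a • A
  rw [mul_smul_comm, mul_one]

private theorem h86ext_eq {p : ℕ} [Fact p.Prime] {k M V : Type} [Field k] [CharP k p] [Group M]
    [AddCommGroup V] [Module k V] [Nontrivial V] (σ : Representation k M V)
    (hs : ∀ f : V →ₗ[k] V, (∀ m, f ∘ₗ σ m = σ m ∘ₗ f) → ∃ a : k, f = a • LinearMap.id)
    (α : MulAut M) (A B : V →ₗ[k] V) (hpA : A ^ p = 1) (hpB : B ^ p = 1)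
    (hA : ∀ m, A * σ m = σ (α m) * A) (hB : ∀ m, B * σ m = σ (α m) * B) : B = A := by
  have hp : p ≠ 0 := (Fact.out : p.Prime).ne_zero
  have e : p = (p - 1) + 1 := by omega
  have h1 : A ^ (p - 1) * A = 1 := by rw [← pow_succ, ← e, hpA]
  have h2 : A * A ^ (p - 1) = 1 := by rw [← pow_succ', ← e, hpA]
  obtain ⟨a, ha⟩ := h86ext_scal σ hs α A (A ^ (p - 1)) B h1 h2 hA hB
  have h3 : a ^ p • (1 : V →ₗ[k] V) = (1 : k) • (1 : V →ₗ[k] V) := by
    rw [one_smul, ← hpA, ← smul_pow, ← ha, hpB, hpA]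
  have h4 : a ^ p = 1 := h86ext_smul_one one_ne_zero h3
  rw [ha, h86ext_one_of_pow a h4, one_smul]

theorem ext_unique (hE : ElAb p E) (act : E →* MulAut M) (σ : Representation k M V)
    (hs : ∀ f : V →ₗ[k] V, (∀ m, f ∘ₗ σ m = σ m ∘ₗ f) → ∃ a : k, f = a • LinearMap.id)
    (X : Representation k E V) (hX : ∀ x m, X x ∘ₗ σ m = σ (act x m) ∘ₗ X x) (x : E)
    (Y : V →ₗ[k] V) (hY : ∀ m, Y ∘ₗ σ m = σ (act x m) ∘ₗ Y) (hp : Y ^ p = LinearMap.id) :
    Y = X x := by
  refine h86ext_eq σ hs (act x) (X x) Y ?_ hp (hX x) hY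
  rw [← map_pow, hE.pow, map_one]

theorem exists_ext (hE : ElAb p E) (hk : ∀ a : k, ∃ b : k, b ^ p = a) (act : E →* MulAut M)
    (σ : Representation k M V)
    (hs : ∀ f : V →ₗ[k] V, (∀ m, f ∘ₗ σ m = σ m ∘ₗ f) → ∃ a : k, f = a • LinearMap.id)
    (hi : ∀ x : E, ∃ Y : V ≃ₗ[k] V, ∀ m, Y.toLinearMap ∘ₗ σ m = σ (act x m) ∘ₗ Y.toLinearMap) :
    ∃ X : Representation k E V, ∀ x m, X x ∘ₗ σ m = σ (act x m) ∘ₗ X x := by
  have hp : p ≠ 0 := (Fact.out : p.Prime).ne_zero
  -- normalised implementing operators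
  have key : ∀ x : E, ∃ A : V →ₗ[k] V, A ^ p = 1 ∧ ∀ m, A * σ m = σ (act x m) * A := by
    intro x
    obtain ⟨Y, hY⟩ := hi x
    set B : V →ₗ[k] V := Y.toLinearMap with hB
    have hBm : ∀ m, B * σ m = σ (act x m) * B := hY
    have hpow : ∀ n : ℕ, ∀ m, B ^ n * σ m = σ ((act x ^ n) m) * B ^ n := by
      intro n
      induction n with
      | zero => intro m; simp
      | succ n ih =>
        intro m
        rw [pow_succ, mul_assoc, hBm, ← mul_assoc, ih, mul_assoc, pow_succ (act x) n]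
        rfl
    have hone : act x ^ p = 1 := by rw [← map_pow, hE.pow, map_one]
    obtain ⟨a, ha⟩ := h86ext_scal σ hs 1 (1 : V →ₗ[k] V) 1 (B ^ p) (one_mul 1) (one_mul 1)
      (by intro m; simp) (by intro m; have := hpow p m; rw [hone] at this; exact this)
    have hinj : Function.Injective (B ^ p : V →ₗ[k] V) := by
      rw [Module.End.coe_pow]
      exact Y.injective.iterate p
    have ha0 : a ≠ 0 := by
      intro h0
      rw [h0, zero_smul] at ha
      obtain ⟨v, hv⟩ := exists_ne (0 : V)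
      apply hv
      apply hinj
      rw [ha]; rfl
    obtain ⟨b, hb⟩ := hk a
    have hb0 : b ≠ 0 := by
      intro h0
      rw [h0, zero_pow hp] at hb
      exact ha0 hb.symm
    refine ⟨b⁻¹ • B, ?_, ?_⟩
    · rw [smul_pow, ha, inv_pow, hb, smul_smul, inv_mul_cancel₀ ha0, one_smul]
    · intro m
      rw [smul_mul_assoc, hBm, mul_smul_comm]
  choose X hXp hXm using key
  have e : p = (p - 1) + 1 := by omega
  have hinv1 : ∀ x, X x ^ (p - 1) * X x = 1 := fun x => by rw [← pow_succ, ← e, hXp]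
  have hinv2 : ∀ x, X x * X x ^ (p - 1) = 1 := fun x => by rw [← pow_succ', ← e, hXp]
  have hmul : ∀ x y m, X x * X y * σ m = σ (act (x * y) m) * (X x * X y) := by
    intro x y m
    rw [mul_assoc, hXm, ← mul_assoc, hXm, mul_assoc, map_mul]
    rfl
  have hcomm : ∀ x y, Commute (X x) (X y) := by
    intro x y
    have h1 : X x ^ (p - 1) * X y ^ (p - 1) * (X y * X x) = 1 := by
      calc X x ^ (p - 1) * X y ^ (p - 1) * (X y * X x)
          = X x ^ (p - 1) * (X y ^ (p - 1) * X y) * X x := by simp only [mul_assoc]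
        _ = 1 := by rw [hinv1, mul_one, hinv1]
    have h2 : X y * X x * (X x ^ (p - 1) * X y ^ (p - 1)) = 1 := by
      calc X y * X x * (X x ^ (p - 1) * X y ^ (p - 1))
          = X y * (X x * X x ^ (p - 1)) * X y ^ (p - 1) := by simp only [mul_assoc]
        _ = 1 := by rw [hinv2, mul_one, hinv2]
    obtain ⟨z, hz⟩ := h86ext_scal σ hs (act (x * y)) (X y * X x)
      (X x ^ (p - 1) * X y ^ (p - 1)) (X x * X y) h1 h2
      (by intro m; rw [hE.comm x y]; exact hmul y x m) (hmul x y)
    have hn : ∀ n : ℕ, X x ^ n * X y = z ^ n • (X y * X x ^ n) := by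
      intro n
      induction n with
      | zero => simp
      | succ n ih =>
        rw [pow_succ, mul_assoc, hz, mul_smul_comm, ← mul_assoc, ih, smul_mul_assoc, smul_smul,
          mul_assoc, ← pow_succ']
    have h3 := hn p
    rw [hXp, one_mul, mul_one] at h3
    have hne : X y ≠ 0 := by
      intro h0
      have := hXp y
      rw [h0, zero_pow hp] at this
      exact zero_ne_one this
    have h4 : z ^ p = 1 := by
      refine h86ext_smul_one hne ?_
      rw [one_smul]; exact h3.symm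
    change X x * X y = X y * X x
    rw [hz, h86ext_one_of_pow z h4, one_smul]
  refine ⟨{ toFun := X, map_one' := ?_, map_mul' := ?_ }, fun x m => hXm x m⟩
  · exact h86ext_eq σ hs (act 1) 1 (X 1) (one_pow p) (hXp 1) (by intro m; simp) (hXm 1)
  · intro x y
    refine h86ext_eq σ hs (act (x * y)) (X x * X y) (X (x * y)) ?_ (hXp _) (hmul x y) (hXm _)
    rw [(hcomm x y).mul_pow, hXp, hXp, one_mul]

end Pool.Agent.Helper24.MA
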