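import Pool.Agent.Helper24.MA.Defs2

/-!
# Consequences of the Fourier relations; dimension of Hom spaces (module MA-20)

`fou_scalar`: by `same` every `A` in `End (V i)` is a linear combination of the `σ i m⁻¹` (divide by `|M| / n_i ≠ 0`), so `f` commutes with
every `A`, hence is a scalar (`Module.End` center, or test on rank one operators).
`finrank_HomC`: `P f = |C|⁻¹ ∑ σ c ∘ f ∘ τ c⁻¹` is a projection of `W →ₗ V` onto `HomC σ τ` (`LinearMap.IsProj`, `LinearMap.IsProj.trace`), and
`trace (f ↦ A f B) = trace A * trace B` (`f ↦ A f B` on `W →ₗ V`; for example through `Module.Basis.linearMap` / matrix units, or `dualTensorHom` and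
`LinearMap.trace_tensorProduct'`). No commutativity is needed.
-/

namespace Pool.Agent.Helper24.MA

theorem fou_scalar {k M I : Type} [Field k] [Group M] [Fintype M] {V : I → Type}
    [∀ i, AddCommGroup (V i)] [∀ i, Module k (V i)] [∀ i, FiniteDimensional k (V i)]
    {σ : ∀ i, Representation k M (V i)}
    (hσ : Fou σ) (hM : (Fintype.card M : k) ≠ 0) (i : I) (f : V i →ₗ[k] V i)
    (hf : ∀ m, f ∘ₗ σ i m = σ i m ∘ₗ f) : ∃ a : k, f = a • LinearMap.id := by
  have hcomm : ∀ A : V i →ₗ[k] V i, f ∘ₗ A = A ∘ₗ f := by
    intro A
    have h1 := hσ.same i A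
    have hc : (Fintype.card M : k) / (Module.finrank k (V i) : k) ≠ 0 :=
      div_ne_zero hM (hσ.dim i)
    have h2 : f ∘ₗ (∑ m, LinearMap.trace k (V i) (A ∘ₗ σ i m) • σ i m⁻¹) =
        (∑ m, LinearMap.trace k (V i) (A ∘ₗ σ i m) • σ i m⁻¹) ∘ₗ f := by
      apply LinearMap.ext
      intro v
      simp only [LinearMap.comp_apply, LinearMap.sum_apply, LinearMap.smul_apply, map_sum,
        map_smul]
      refine Finset.sum_congr rfl fun m _ => ?_
      congr 1
      exact LinearMap.congr_fun (hf m⁻¹) v
    rw [h1, LinearMap.comp_smul, LinearMap.smul_comp] at h2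
    exact (smul_right_injective _ hc) h2
  have hcen : f ∈ Set.center (Module.End k (V i)) := by
    rw [Semigroup.mem_center_iff]
    intro A
    exact (hcomm A).symm
  rw [Module.End.mem_center_iff] at hcen
  obtain ⟨α, hα, h⟩ := hcen
  refine ⟨α, ?_⟩
  rw [h]
  apply LinearMap.ext
  intro v
  rfl

theorem finrank_HomC {k C V W : Type} [Field k] [Group C] [Fintype C] [AddCommGroup V]
    [Module k V] [FiniteDimensional k V] [AddCommGroup W] [Module k W] [FiniteDimensional k W]
    (σ : Representation k C V) (τ : Representation k C W) (hC : (Fintype.card C : k) ≠ 0) :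
    (Module.finrank k (HomC σ τ) : k) = (Fintype.card C : k)⁻¹ *
      ∑ c, LinearMap.trace k V (σ c) * LinearMap.trace k W (τ c⁻¹) := by
  have hC' : (Nat.card C : k) ≠ 0 := by rwa [Nat.card_eq_fintype_card]
  letI : Invertible (Nat.card C : k) := invertibleOfNonzero hC'
  have h1 := Representation.card_inv_mul_sum_char_eq_finrank (Representation.linHom τ σ)
  have h2 : (Representation.linHom τ σ).invariants = HomC σ τ := by
    ext f
    rw [Representation.mem_invariants]
    constructor
    · intro h c
      have := h c
      rw [Representation.linHom_apply] at this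
      apply LinearMap.ext
      intro w
      have h3 := LinearMap.congr_fun this (τ c w)
      simp only [LinearMap.comp_apply] at h3
      rw [← Module.End.mul_apply, ← map_mul, inv_mul_cancel, map_one, Module.End.one_apply] at h3
      simpa using h3
    · intro h c
      rw [Representation.linHom_apply]
      apply LinearMap.ext
      intro w
      have h3 := LinearMap.congr_fun (h c) (τ c⁻¹ w)
      simp only [LinearMap.comp_apply] at h3 ⊢
      rw [h3, ← Module.End.mul_apply, ← map_mul, mul_inv_cancel, map_one, Module.End.one_apply]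
  rw [h2] at h1
  rw [← h1, Nat.card_eq_fintype_card]
  congr 1
  refine Finset.sum_congr rfl fun c _ => ?_
  rw [Representation.char_linHom]
  exact mul_comm _ _

end Pool.Agent.Helper24.MA
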