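import Pool.Agent.Helper24.MA.Defs2
import Pool.Agent.Helper24.MA.Op.SpPow

/-!
# gr of V is at least the sum of dim(W j) gr(Hom_C(W j, V)) (module MA-21)

PROOF. Let `w (j,a)`, `a < d_j`, be a basis of `W j`, with coordinate forms `w* (j,a)`. Index set: the pairs `(j,a)`
(`Σ j, Fin (finrank (W j))`). `A (j,a) : HomC σ (τ j) → V`, `f ↦ f (w (j,a))`.
`B (j,a) : V → HomC σ (τ j)`, `v ↦ (w ↦ (d_j/|C|) ∑ c, w* (j,a) (τ j c⁻¹ w) • σ c v)`; it is `C`-linear (substitute `c ↦ c' c`). For `f` in
`HomC σ (τ j')`: `B (j,a) (f (w (j',b))) w = (d_j/|C|) ∑ c, w* (j,a) (τ j c⁻¹ w) • f (τ j' c (w (j',b)))`, and by the Fourier relations of `τ` (with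
`c ↦ c⁻¹`, `A` = the rank one operator `v ↦ w* (j,a) v • w` of `W j`, `trace (A τ j c⁻¹) = w* (j,a) (τ j c⁻¹ w)`) the sum `∑ c, trace (A τ j c⁻¹) • τ j' c` is
`(|C|/d_j) A` if `j = j'` and `0` otherwise, so the value is `f (A (w (j,b))) = δ_(a,b) f w` if `j = j'` and `0` otherwise. All the maps commute with `E`
(`X x` commutes with `σ c`). Apply `gr_sum_le`; the sum over `a` gives the factor `finrank (W j)`. (`homE .. x f = X x ∘ f`.)
-/

namespace Pool.Agent.Helper24.MA

private theorem trace_rankOne {k W : Type} [Field k] [AddCommGroup W] [Module k W]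
    [FiniteDimensional k W] (φ : W →ₗ[k] k) (w : W) :
    LinearMap.trace k W (φ.smulRight w) = φ w := by
  have h := LinearMap.trace_comp_comm' (R := k) φ (LinearMap.toSpanSingleton k W w)
  have h1 : LinearMap.toSpanSingleton k W w ∘ₗ φ = φ.smulRight w := by
    ext v; simp
  have h2 : φ ∘ₗ LinearMap.toSpanSingleton k W w = (φ w) • LinearMap.id := by
    ext; simp
  rw [h1, h2] at h
  rw [h, map_smul, LinearMap.trace_id]
  simp

section maps

variable {k C E J V : Type} [Field k] [Group C] [Fintype C] [Group E] [Fintype E]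
    {W : J → Type} [∀ j, AddCommGroup (W j)] [∀ j, Module k (W j)]
    [∀ j, FiniteDimensional k (W j)] (τ : ∀ j, Representation k C (W j))
    [AddCommGroup V] [Module k V] (σ : Representation k C V)

private noncomputable def mapA (i : Σ j, Fin (Module.finrank k (W j))) :
    HomC σ (τ i.1) →ₗ[k] V where
  toFun f := f.1 (Module.finBasis k (W i.1) i.2)
  map_add' f g := by simp
  map_smul' c f := by simp

private noncomputable def mapB0 (i : Σ j, Fin (Module.finrank k (W j))) (v : V) :
    W i.1 →ₗ[k] V :=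
  ((Module.finrank k (W i.1) : k) / (Fintype.card C : k)) •
    ∑ c : C, (((Module.finBasis k (W i.1)).coord i.2) ∘ₗ τ i.1 c⁻¹).smulRight (σ c v)

private theorem mapB0_apply (i : Σ j, Fin (Module.finrank k (W j))) (v : V) (w : W i.1) :
    mapB0 τ σ i v w = ((Module.finrank k (W i.1) : k) / (Fintype.card C : k)) •
      ∑ c : C, ((Module.finBasis k (W i.1)).coord i.2) (τ i.1 c⁻¹ w) • σ c v := by
  simp [mapB0]

private theorem mapB0_mem (i : Σ j, Fin (Module.finrank k (W j))) (v : V) :
    mapB0 τ σ i v ∈ HomC σ (τ i.1) := by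
  intro c'
  ext w
  rw [LinearMap.comp_apply, LinearMap.comp_apply, mapB0_apply, mapB0_apply, map_smul, map_sum]
  congr 1
  refine Finset.sum_bij' (fun c _ => c' * c) (fun c _ => c'⁻¹ * c) ?_ ?_ ?_ ?_ ?_
  · intro c _; exact Finset.mem_univ _
  · intro c _; exact Finset.mem_univ _
  · intro c _; group
  · intro c _; group
  · intro c _
    rw [map_smul, ← Module.End.mul_apply, ← map_mul σ, ← Module.End.mul_apply, ← map_mul (τ i.1)]
    congr 3
    congr 1
    group

private noncomputable def mapB (i : Σ j, Fin (Module.finrank k (W j))) :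
    V →ₗ[k] HomC σ (τ i.1) where
  toFun v := ⟨mapB0 τ σ i v, mapB0_mem τ σ i v⟩
  map_add' u v := by
    apply Subtype.ext
    ext w
    rw [Submodule.coe_add, LinearMap.add_apply, mapB0_apply, mapB0_apply, mapB0_apply, ← smul_add,
      ← Finset.sum_add_distrib]
    congr 1
    apply Finset.sum_congr rfl
    intro c _
    rw [map_add, smul_add]
  map_smul' a v := by
    apply Subtype.ext
    ext w
    rw [RingHom.id_apply, Submodule.coe_smul, LinearMap.smul_apply, mapB0_apply, mapB0_apply]
    have h : ∑ c : C, ((Module.finBasis k (W i.1)).coord i.2) (τ i.1 c⁻¹ w) • σ c (a • v) =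
        a • ∑ c : C, ((Module.finBasis k (W i.1)).coord i.2) (τ i.1 c⁻¹ w) • σ c v := by
      rw [Finset.smul_sum]
      apply Finset.sum_congr rfl
      intro c _
      rw [map_smul, smul_comm]
    rw [h, smul_comm]

private theorem mapB_mapA (i i' : Σ j, Fin (Module.finrank k (W j)))
    (f : HomC σ (τ i'.1)) (w : W i.1) :
    (mapB τ σ i (mapA τ σ i' f)).1 w = ((Module.finrank k (W i.1) : k) / (Fintype.card C : k)) •
      f.1 (∑ c : C, ((Module.finBasis k (W i.1)).coord i.2) (τ i.1 c w) •
        τ i'.1 c⁻¹ (Module.finBasis k (W i'.1) i'.2)) := by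
  change mapB0 τ σ i (mapA τ σ i' f) w = _
  rw [mapB0_apply, map_sum]
  congr 1
  refine Finset.sum_bij' (fun c _ => c⁻¹) (fun c _ => c⁻¹) ?_ ?_ ?_ ?_ ?_
  · intro c _; exact Finset.mem_univ _
  · intro c _; exact Finset.mem_univ _
  · intro c _; exact inv_inv c
  · intro c _; exact inv_inv c
  · intro c _
    rw [inv_inv, map_smul]
    congr 1
    have h := LinearMap.congr_fun (f.2 c) (Module.finBasis k (W i'.1) i'.2)
    simpa [mapA] using h

end maps

theorem sum_homE_le (p : ℕ) [Fact p.Prime] {k C E J V : Type} [Field k] [CharP k p] [Group C]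
    [Fintype C] [Group E] [Fintype E] (hE : ElAb p E) (hC : (Fintype.card C : k) ≠ 0)
    [Fintype J] {W : J → Type} [∀ j, AddCommGroup (W j)] [∀ j, Module k (W j)]
    [∀ j, FiniteDimensional k (W j)] (τ : ∀ j, Representation k C (W j)) (hτ : Fou τ)
    [AddCommGroup V] [Module k V] [FiniteDimensional k V] (σ : Representation k C V)
    (X : Representation k E V) (hX : ∀ x c, X x ∘ₗ σ c = σ c ∘ₗ X x) :
    ∑ j, Module.finrank k (W j) * gr p (homE σ (τ j) X hX) ≤ gr p X := by
  classical
  -- the Fourier relations on basis vectors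
  have key1 : ∀ (i : Σ j, Fin (Module.finrank k (W j))) (w : W i.1) (u : W i.1),
      ∑ c : C, ((Module.finBasis k (W i.1)).coord i.2) (τ i.1 c w) • τ i.1 c⁻¹ u =
      ((Fintype.card C : k) / (Module.finrank k (W i.1) : k)) •
        ((Module.finBasis k (W i.1)).coord i.2 u • w) := by
    intro i w u
    have h := hτ.same i.1 (((Module.finBasis k (W i.1)).coord i.2).smulRight w)
    have h2 := LinearMap.congr_fun h u
    rw [LinearMap.sum_apply, LinearMap.smul_apply, LinearMap.smulRight_apply] at h2
    rw [← h2]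
    apply Finset.sum_congr rfl
    intro c _
    rw [LinearMap.smul_apply]
    congr 1
    have h3 : (((Module.finBasis k (W i.1)).coord i.2).smulRight w) ∘ₗ τ i.1 c =
        (((Module.finBasis k (W i.1)).coord i.2) ∘ₗ τ i.1 c).smulRight w := by
      ext v; simp
    rw [h3, trace_rankOne]
    rfl
  have key2 : ∀ (i i' : Σ j, Fin (Module.finrank k (W j))), i.1 ≠ i'.1 → ∀ (w : W i.1) (u : W i'.1),
      ∑ c : C, ((Module.finBasis k (W i.1)).coord i.2) (τ i.1 c w) • τ i'.1 c⁻¹ u = 0 := by
    intro i i' hii w u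
    have h := hτ.diff i.1 i'.1 hii (((Module.finBasis k (W i.1)).coord i.2).smulRight w)
    have h2 := LinearMap.congr_fun h u
    rw [LinearMap.sum_apply, LinearMap.zero_apply] at h2
    rw [← h2]
    apply Finset.sum_congr rfl
    intro c _
    rw [LinearMap.smul_apply]
    congr 1
    have h3 : (((Module.finBasis k (W i.1)).coord i.2).smulRight w) ∘ₗ τ i.1 c =
        (((Module.finBasis k (W i.1)).coord i.2) ∘ₗ τ i.1 c).smulRight w := by
      ext v; simp
    rw [h3, trace_rankOne]
    rfl
  have hone : ∀ i : Σ j, Fin (Module.finrank k (W j)),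
      ((Module.finrank k (W i.1) : k) / (Fintype.card C : k)) *
        ((Fintype.card C : k) / (Module.finrank k (W i.1) : k)) = 1 := by
    intro i
    have := hτ.dim i.1
    field_simp
  have hmain := gr_sum_le (ι := Σ j, Fin (Module.finrank k (W j))) p hE
    (fun i => homE σ (τ i.1) X hX) X (fun i => mapA τ σ i) (fun i => mapB τ σ i) ?_ ?_ ?_ ?_
  · calc ∑ j, Module.finrank k (W j) * gr p (homE σ (τ j) X hX)
        = ∑ i : Σ j, Fin (Module.finrank k (W j)), gr p (homE σ (τ i.1) X hX) := by
          rw [Fintype.sum_sigma]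
          apply Finset.sum_congr rfl
          intro j _
          exact (((Finset.sum_const _).trans (congrArg (fun n => n • gr p (homE σ (τ j) X hX))
            (Finset.card_fin _))).trans (smul_eq_mul _ _)).symm
      _ ≤ gr p X := hmain
  · intro i
    apply LinearMap.ext
    intro f
    apply Subtype.ext
    ext w
    rw [LinearMap.comp_apply, mapB_mapA, key1, map_smul, map_smul, smul_smul, hone, one_smul,
      Module.Basis.coord_apply, Module.Basis.repr_self, Finsupp.single_eq_same, one_smul,
      LinearMap.id_apply]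
  · intro i i' hii
    apply LinearMap.ext
    intro f
    apply Subtype.ext
    ext w
    rw [LinearMap.comp_apply, mapB_mapA]
    by_cases h : i.1 = i'.1
    · obtain ⟨j, a⟩ := i
      obtain ⟨j', a'⟩ := i'
      have h' : j = j' := h
      subst h'
      have haa : a ≠ a' := fun e => hii (by rw [e])
      rw [key1 ⟨j, a⟩ w, Module.Basis.coord_apply, Module.Basis.repr_self]
      have : (Finsupp.single a' (1 : k)) a = 0 := Finsupp.single_eq_of_ne haa
      simp only
      rw [this]
      simp
    · rw [key2 i i' h, map_zero, smul_zero]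
      rfl
  · intro i x
    apply LinearMap.ext
    intro f
    simp [mapA, homE, homRep]
  · intro i x
    apply LinearMap.ext
    intro v
    apply Subtype.ext
    ext w
    change mapB0 τ σ i (X x v) w = X x (mapB0 τ σ i v w)
    rw [mapB0_apply, mapB0_apply, map_smul, map_sum]
    congr 1
    apply Finset.sum_congr rfl
    intro c _
    rw [map_smul]
    congr 1
    exact (LinearMap.congr_fun (hX x c) v).symm

end Pool.Agent.Helper24.MA
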